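import Pool.Agent.R257.CuspMain

/-!
# Markov's inequality fails on every cusp with irrational exponent

For irrational `σ > 1` and an integer `p > σ` let
`X = {(x, y) : 0 ≤ x ≤ 1, x ^ σ ≤ y ≤ x ^ σ + x ^ p}`. We prove that `X` never satisfies the Markov
inequality.

Idea. The distribution function of `∑ E_q`, where the `E_q` are independent exponential variables
with the (pairwise different) rates `i + σ j`, `0 ≤ i, j ≤ m`, `(i, j) ≠ (0, 0)`, is a combination of
the functions `exp (- (i + σ j) τ)`, hence with `x = exp (-τ)` the restriction of a polynomial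
`R (x, y)` of degree `2 m` to the curve `y = x ^ σ`. It lies between `0` and `1`, it is at most
`exp (- c m ^ 2)` for `τ ≤ c' m`, and it grows at most like `exp (2 (1 + σ) m |τ|)` for `τ < 0`.
The product of `(1 - x) ^ M` and of the `2 ^ (n - k)`-th powers of the rescaled polynomials
`R (x exp (k T), y exp (σ k T))`, `T = c' m`, is bounded by `1` on `X`, has degree `O (2 ^ n)`
and a derivative at the origin of size at least `exp (n T)`, where `T` is as large as we like.
-/

set_option autoImplicit false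

namespace Pool.Agent.Results.MP_bd9c87_an.MarkovFails

open MvPolynomial

/-- The cusp `X = {(x, y) : 0 ≤ x ≤ 1, x ^ σ ≤ y ≤ x ^ σ + x ^ p}`. -/
def cusp (σ : ℝ) (p : ℕ) : Set (ℝ × ℝ) :=
  {z | 0 ≤ z.1 ∧ z.1 ≤ 1 ∧ z.1 ^ σ ≤ z.2 ∧ z.2 ≤ z.1 ^ σ + z.1 ^ p}

/-- The Euclidean norm of the gradient of the polynomial `P` at the point `z`. -/
noncomputable def gradNorm (P : MvPolynomial (Fin 2) ℝ) (z : ℝ × ℝ) : ℝ :=
  Real.sqrt ((eval ![z.1, z.2] (pderiv 0 P)) ^ 2 + (eval ![z.1, z.2] (pderiv 1 P)) ^ 2)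

/-- The Markov inequality for the set `E`: there are constants `C, r > 0` such that for every real
polynomial `P` in two variables every bound `M` of `|P|` on `E` gives the bound
`C (deg P) ^ r M` of `|∇P|` on `E`, i.e. `‖∇P‖_E ≤ C (deg P) ^ r ‖P‖_E`. -/
def MarkovInequality (E : Set (ℝ × ℝ)) : Prop :=
  ∃ C r : ℝ, 0 < C ∧ 0 < r ∧ ∀ (P : MvPolynomial (Fin 2) ℝ) (M : ℝ),
    (∀ z ∈ E, |eval ![z.1, z.2] P| ≤ M) →
      ∀ z ∈ E, gradNorm P z ≤ C * (P.totalDegree : ℝ) ^ r * M

/-- **The Markov inequality fails on `X` for every irrational `σ > 1` and every integer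
`p > σ`.** -/
theorem result : ∀ σ : ℝ, Irrational σ → 1 < σ → ∀ p : ℕ, σ < p →
    ¬ MarkovInequality (cusp σ p) := by
  intro σ hσ h1 p hp ⟨C, r, hC, hr, H⟩
  obtain ⟨T, D, P, hBT, hT, hD, hdeg, hbd, hder⟩ :=
    Pool.Agent.R257.Cusp.exists_polys hσ h1 hp (r * Real.log 2)
  have hσ0 : σ ≠ 0 := by linarith
  have hp0 : p ≠ 0 := by
    rintro rfl
    simp at hp
    linarith
  have hmem : ((0 : ℝ), (0 : ℝ)) ∈ cusp σ p := by
    simp [cusp, Real.zero_rpow hσ0, zero_pow hp0]
  have key : ∀ n : ℕ, Real.exp (n * T) ≤ C * (D : ℝ) ^ r * Real.exp (n * (r * Real.log 2)) := by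
    intro n
    have h2 := H (P n) 1 (fun z hz => hbd n z.1 z.2 hz.1 hz.2.1 hz.2.2.1 hz.2.2.2) (0, 0) hmem
    have h3 : |eval ![(0 : ℝ), 0] (pderiv 0 (P n))| ≤ gradNorm (P n) (0, 0) := by
      unfold gradNorm
      rw [← Real.sqrt_sq_eq_abs]
      apply Real.sqrt_le_sqrt
      have := sq_nonneg (eval ![(0 : ℝ), 0] (pderiv 1 (P n)))
      simp only
      linarith
    have h4 : ((P n).totalDegree : ℝ) ≤ D * 2 ^ n := by exact_mod_cast hdeg n
    have h5 : ((P n).totalDegree : ℝ) ^ r ≤ ((D : ℝ) * 2 ^ n) ^ r :=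
      Real.rpow_le_rpow (Nat.cast_nonneg _) h4 hr.le
    have h6 : ((D : ℝ) * 2 ^ n) ^ r = (D : ℝ) ^ r * Real.exp (n * (r * Real.log 2)) := by
      rw [Real.mul_rpow (Nat.cast_nonneg _) (by positivity)]
      congr 1
      rw [← Real.rpow_natCast, ← Real.rpow_mul (by norm_num), Real.rpow_def_of_pos (by norm_num)]
      congr 1
      ring
    calc Real.exp (n * T) ≤ |eval ![(0 : ℝ), 0] (pderiv 0 (P n))| := hder n
      _ ≤ gradNorm (P n) (0, 0) := h3
      _ ≤ C * ((P n).totalDegree : ℝ) ^ r * 1 := h2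
      _ ≤ C * ((D : ℝ) * 2 ^ n) ^ r * 1 := by
          apply mul_le_mul_of_nonneg_right _ zero_le_one
          exact mul_le_mul_of_nonneg_left h5 hC.le
      _ = C * (D : ℝ) ^ r * Real.exp (n * (r * Real.log 2)) := by
          rw [h6, mul_one, mul_assoc]
  -- contradiction for large `n`
  have hgap : 0 < T - r * Real.log 2 := by linarith
  obtain ⟨n, hn⟩ := exists_nat_gt (C * (D : ℝ) ^ r / (T - r * Real.log 2))
  have h7 := key n
  have h8 : Real.exp (n * T) = Real.exp (n * (T - r * Real.log 2)) *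
      Real.exp (n * (r * Real.log 2)) := by
    rw [← Real.exp_add]
    congr 1
    ring
  rw [h8] at h7
  have h9 : Real.exp (n * (T - r * Real.log 2)) ≤ C * (D : ℝ) ^ r :=
    le_of_mul_le_mul_right h7 (Real.exp_pos _)
  have h10 : (n : ℝ) * (T - r * Real.log 2) + 1 ≤ Real.exp (n * (T - r * Real.log 2)) :=
    Real.add_one_le_exp _
  rw [div_lt_iff₀ hgap] at hn
  linarith

end Pool.Agent.Results.MP_bd9c87_an.MarkovFails
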